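import Mathlib
import Pool.Agent.H584.NF.GauMain
import Pool.Agent.H584.SH.Main2

/-!
# Triples of Gaussian integers with radicals of prescribed sizes on the boundary of the abc conjecture

For `α + β + γ < 1` the abc conjecture over `ℤ[i]` says that there are (up to units) only finitely
many coprime triples `a + b = c` of Gaussian integers with `rad(a) ≤ |a| ^ α`, `rad(b) ≤ |b| ^ β`,
`rad(c) ≤ |c| ^ γ`. We show that there are infinitely many for all rational points of the boundary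
plane `α + β + γ = 1` with `α, β, γ < 1` (and finitely many for the three remaining points); for
`α, β, γ > 0` the quotients `a / c` are dense in `ℂ` and the three radicals can be made smaller by any
constant factor.

The proof uses the Padé approximants of `(1 - t) ^ N`, at arguments `t` close to an arbitrary complex
number and close to roots of the Padé polynomials in the completions of `ℤ[i]` at three primes of
degree one; `1 - t` is, up to a fixed factor, a quotient of powers of two rational integers.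
-/

set_option autoImplicit false

namespace Pool.Agent.Results.MP_dc323a_nt.RadicalsOnTheBoundary

/-- `|n|` -/
noncomputable def nm (n : GaussianInt) : ℝ := ‖GaussianInt.toComplex n‖

/-- `rad(n)`: the product of `|Q|` over the Gaussian primes `Q` dividing `n`, one from each class of
associates, namely the one with `Re Q > 0` and `Im Q ≥ 0` -/
noncomputable def rad (n : GaussianInt) : ℝ :=
  ∏ᶠ Q ∈ {Q : GaussianInt | Prime Q ∧ Q ∣ n ∧ (0 < Q.re ∧ 0 ≤ Q.im)}, ‖GaussianInt.toComplex Q‖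

/-- the triples `a + b = c` of coprime nonzero Gaussian integers, given by the pairs `(a, b)`, with
`K rad(a) ≤ |a| ^ α`, `K rad(b) ≤ |b| ^ β`, `K rad(c) ≤ |c| ^ γ` -/
def Triples (K α β γ : ℝ) : Set (GaussianInt × GaussianInt) :=
  {p | p.1 ≠ 0 ∧ p.2 ≠ 0 ∧ p.1 + p.2 ≠ 0 ∧ IsCoprime p.1 p.2 ∧ K * rad p.1 ≤ nm p.1 ^ α ∧
    K * rad p.2 ≤ nm p.2 ^ β ∧ K * rad (p.1 + p.2) ≤ nm (p.1 + p.2) ^ γ}

lemma exists_den {α β γ : ℚ} (hα : 0 < α) (hβ : 0 < β) (hγ : 0 < γ) (h : α + β + γ = 1) :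
    ∃ L u v w : ℕ, 0 < L ∧ 0 < u ∧ 0 < v ∧ 0 < w ∧ u + v + w = L ∧ (α : ℝ) = u / L ∧
      (β : ℝ) = v / L ∧ (γ : ℝ) = w / L := by
  obtain ⟨a, ha⟩ := Int.eq_ofNat_of_zero_le (Rat.num_pos.2 hα).le
  obtain ⟨b, hb⟩ := Int.eq_ofNat_of_zero_le (Rat.num_pos.2 hβ).le
  obtain ⟨c, hc⟩ := Int.eq_ofNat_of_zero_le (Rat.num_pos.2 hγ).le
  have ha0 : 0 < a := by have := Rat.num_pos.2 hα; omega
  have hb0 : 0 < b := by have := Rat.num_pos.2 hβ; omega
  have hc0 : 0 < c := by have := Rat.num_pos.2 hγ; omega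
  have e1 : α = (a : ℚ) / α.den := by
    conv_lhs => rw [← Rat.num_div_den α, ha]
    simp
  have e2 : β = (b : ℚ) / β.den := by
    conv_lhs => rw [← Rat.num_div_den β, hb]
    simp
  have e3 : γ = (c : ℚ) / γ.den := by
    conv_lhs => rw [← Rat.num_div_den γ, hc]
    simp
  have d1 : (0 : ℚ) < α.den := by exact_mod_cast α.pos
  have d2 : (0 : ℚ) < β.den := by exact_mod_cast β.pos
  have d3 : (0 : ℚ) < γ.den := by exact_mod_cast γ.pos
  have p1 := α.pos
  have p2 := β.pos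
  have p3 := γ.pos
  have f1 : α = ((a * β.den * γ.den : ℕ) : ℚ) / ((α.den * β.den * γ.den : ℕ) : ℚ) := by
    conv_lhs => rw [e1]
    push_cast
    field_simp
  have f2 : β = ((α.den * b * γ.den : ℕ) : ℚ) / ((α.den * β.den * γ.den : ℕ) : ℚ) := by
    conv_lhs => rw [e2]
    push_cast
    field_simp
  have f3 : γ = ((α.den * β.den * c : ℕ) : ℚ) / ((α.den * β.den * γ.den : ℕ) : ℚ) := by
    conv_lhs => rw [e3]
    push_cast
    field_simp
  obtain ⟨L, hL⟩ : ∃ L, L = α.den * β.den * γ.den := ⟨_, rfl⟩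
  obtain ⟨u, hu⟩ : ∃ u, u = a * β.den * γ.den := ⟨_, rfl⟩
  obtain ⟨v, hv⟩ : ∃ v, v = α.den * b * γ.den := ⟨_, rfl⟩
  obtain ⟨w, hw⟩ : ∃ w, w = α.den * β.den * c := ⟨_, rfl⟩
  rw [← hL, ← hu] at f1
  rw [← hL, ← hv] at f2
  rw [← hL, ← hw] at f3
  have hL0 : 0 < L := by rw [hL]; positivity
  have hu0 : 0 < u := by rw [hu]; positivity
  have hv0 : 0 < v := by rw [hv]; positivity
  have hw0 : 0 < w := by rw [hw]; positivity
  have hL0' : (0 : ℚ) < L := by exact_mod_cast hL0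
  have cast : ∀ {q : ℚ} {i : ℕ}, q = (i : ℚ) / L → (q : ℝ) = (i : ℝ) / L := by
    intro q i hq
    rw [hq]
    push_cast
    rfl
  refine ⟨L, u, v, w, hL0, hu0, hv0, hw0, ?_, cast f1, cast f2, cast f3⟩
  rw [f1, f2, f3, ← add_div, ← add_div, div_eq_one_iff_eq hL0'.ne'] at h
  exact_mod_cast h

lemma nm_pos {n : GaussianInt} (hn : n ≠ 0) : 0 < nm n := by
  unfold nm
  rw [norm_pos_iff]
  intro h
  exact hn (GaussianInt.toComplex_eq_zero.1 h)

lemma rad_nonneg (n : GaussianInt) : 0 ≤ rad n :=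
  finprod_mem_induction (fun x : ℝ => 0 ≤ x) zero_le_one (fun _ _ => mul_nonneg)
    fun _ _ => norm_nonneg _

lemma rad_sq {n : GaussianInt} (hn : n ≠ 0) : rad n ^ 2 ≤ H584.NF.RN n := H584.NF.Gau.rad_sq hn

/-- the step from norms to absolute values -/
lemma step {n : GaussianInt} (hn : n ≠ 0) {K s : ℝ} (hK : 0 ≤ K)
    (h : K ^ 2 * H584.NF.RN n ≤ (‖GaussianInt.toComplex n‖ ^ 2) ^ s) : K * rad n ≤ nm n ^ s := by
  have h1 : (K * rad n) ^ 2 ≤ (nm n ^ s) ^ 2 := by
    calc (K * rad n) ^ 2 = K ^ 2 * rad n ^ 2 := by ring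
      _ ≤ K ^ 2 * H584.NF.RN n := by
          have := rad_sq hn
          gcongr
      _ ≤ (nm n ^ 2) ^ s := h
      _ = (nm n ^ s) ^ 2 := by
          rw [← Real.rpow_natCast (nm n) 2, ← Real.rpow_mul (nm_pos hn).le, mul_comm,
            Real.rpow_mul (nm_pos hn).le, Real.rpow_natCast]
  exact (pow_le_pow_iff_left₀ (mul_nonneg hK (rad_nonneg n))
    (Real.rpow_nonneg (nm_pos hn).le _) two_ne_zero).1 h1

lemma part1 {α β γ : ℚ} (hα : 0 < α) (hβ : 0 < β) (hγ : 0 < γ) (h : α + β + γ = 1) (K : ℝ) (z : ℂ)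
    {ε : ℝ} (hε : 0 < ε) :
    {p ∈ Triples K α β γ | ‖GaussianInt.toComplex p.1 / GaussianInt.toComplex (p.1 + p.2) - z‖
      < ε}.Infinite := by
  obtain ⟨L, u, v, w, hL, hu, hv, hw, hsum, e1, e2, e3⟩ := exists_den hα hβ hγ h
  intro hf
  obtain ⟨M, hM⟩ := (hf.image fun p => ‖GaussianInt.toComplex (p.1 + p.2)‖ ^ 2).bddAbove
  have hL' : (0 : ℝ) < L := by exact_mod_cast hL
  obtain ⟨a, b, c, ha, hb, hc, habc, hcop, hN, hz, r1, r2, r3⟩ :=
    H584.NF.gauss_main (n := 2 * w) (m := 2 * v) (k := 2 * u - 1) (by omega) (by omega) z hε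
      ((max K 0) ^ 2) (M + 1)
  have i2 : 2 * w + 2 * v + (2 * u - 1) + 1 = 2 * L := by omega
  have k1 : ((2 * u - 1 + 1 : ℕ) : ℝ) / (2 * w + 2 * v + (2 * u - 1) + 1 : ℕ) = α := by
    have i1 : 2 * u - 1 + 1 = 2 * u := by omega
    rw [i1, i2, e1]
    push_cast
    field_simp
  have k2 : ((2 * v : ℕ) : ℝ) / (2 * w + 2 * v + (2 * u - 1) + 1 : ℕ) = β := by
    rw [i2, e2]
    push_cast
    field_simp
  have k3 : ((2 * w : ℕ) : ℝ) / (2 * w + 2 * v + (2 * u - 1) + 1 : ℕ) = γ := by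
    rw [i2, e3]
    push_cast
    field_simp
  rw [k1] at r1
  rw [k2] at r2
  rw [k3] at r3
  have hK0 : 0 ≤ max K 0 := le_max_right _ _
  have key : ∀ {n : GaussianInt} {s : ℝ}, n ≠ 0 →
      (max K 0) ^ 2 * H584.NF.RN n ≤ (‖GaussianInt.toComplex n‖ ^ 2) ^ s → K * rad n ≤ nm n ^ s :=
    fun hn h1 => (mul_le_mul_of_nonneg_right (le_max_left K 0) (rad_nonneg _)).trans
      (step hn hK0 h1)
  have hmem : (a, b) ∈ {p ∈ Triples K α β γ |
      ‖GaussianInt.toComplex p.1 / GaussianInt.toComplex (p.1 + p.2) - z‖ < ε} := by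
    refine ⟨⟨ha, hb, by rw [habc]; exact hc, hcop, key ha r1, key hb r2, ?_⟩, ?_⟩
    · simp only
      rw [habc]
      exact key hc r3
    · simp only
      rw [habc]
      exact hz
  have := hM ⟨(a, b), hmem, rfl⟩
  simp only at this
  rw [habc] at this
  linarith

/-- the radical of a natural number -/
def R (m : ℕ) : ℕ := ∏ p ∈ m.primeFactors, p

lemma part2 {β : ℚ} (h0 : 0 < β) (h1 : β < 1) :
    {b : ℕ | 0 < b ∧ (R b : ℝ) ≤ (b : ℝ) ^ (β : ℝ) ∧
      (R (b + 1) : ℝ) ≤ ((b + 1 : ℕ) : ℝ) ^ (1 - β : ℝ)}.Infinite := by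
  obtain ⟨a, ha⟩ := Int.eq_ofNat_of_zero_le (Rat.num_pos.2 h0).le
  have ha0 : 0 < a := by have := Rat.num_pos.2 h0; omega
  have hlt : a < β.den := by
    have := Rat.num_lt_denom_iff.2 h1
    omega
  have e : (β : ℝ) = (a : ℝ) / β.den := by
    rw [Rat.cast_def, ha]
    simp
  have hd : (0 : ℝ) < β.den := by exact_mod_cast β.pos
  intro hf
  obtain ⟨M, hM⟩ := hf.bddAbove
  obtain ⟨b, hN, hb, r1, r2⟩ := H584.SH.main2 (n := 2 * (β.den - a)) (m := 2 * a - 1)
    (even_two_mul _) (by omega) 1 (M + 1)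
  have i2 : 2 * (β.den - a) + (2 * a - 1) + 1 = 2 * β.den := by omega
  have k1 : ((2 * a - 1 + 1 : ℕ) : ℝ) / (2 * (β.den - a) + (2 * a - 1) + 1 : ℕ) = β := by
    have i1 : 2 * a - 1 + 1 = 2 * a := by omega
    rw [i1, i2, e]
    push_cast
    field_simp
  have k2 : ((2 * (β.den - a) : ℕ) : ℝ) / (2 * (β.den - a) + (2 * a - 1) + 1 : ℕ) = 1 - β := by
    rw [i2, e]
    push_cast [hlt.le]
    field_simp
  rw [k1, one_mul] at r1
  rw [k2, one_mul] at r2
  have := hM ⟨hb, r1, r2⟩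
  omega

lemma rad_nat {b : ℕ} (hb : b ≠ 0) : rad (b : GaussianInt) ≤ R b := by
  have hb' : (b : GaussianInt) ≠ 0 := by exact_mod_cast hb
  obtain ⟨σ, hσ0⟩ : ∃ σ : Fin 2 → GaussianInt →+* ℂ, σ = ![GaussianInt.toComplex,
    (starRingEnd ℂ).comp GaussianInt.toComplex] := ⟨_, rfl⟩
  have hσ : ∀ x : GaussianInt, (H584.NF.nn x : ℝ) = ∏ j, ‖σ j x‖ := by
    intro x
    rw [H584.NF.Gau.nn_eq, Fin.prod_univ_two, hσ0]
    simp [sq]
  obtain ⟨e, he⟩ := UniqueFactorizationMonoid.exists_dvd_radical_self_pow hb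
  rw [Nat.radical_eq_prod_primeFactors] at he
  have hR : 0 < R b := Finset.prod_pos fun q hq => (Nat.prime_of_mem_primeFactors hq).pos
  have h1 := H584.NF.RN_nat σ hσ (a := b) (W := R b) (e := e) hR he
  rw [Fintype.card_fin] at h1
  have h2 := rad_sq hb'
  have h3 : rad (b : GaussianInt) ^ 2 ≤ (R b : ℝ) ^ 2 := h2.trans (by exact_mod_cast h1)
  exact (pow_le_pow_iff_left₀ (rad_nonneg _) (by positivity) two_ne_zero).1 h3

lemma rad_neg (n : GaussianInt) : rad (-n) = rad n := by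
  unfold rad
  simp only [dvd_neg]

lemma nm_nat (b : ℕ) : nm (b : GaussianInt) = b := by
  unfold nm
  rw [map_natCast, Complex.norm_natCast]

lemma nm_neg (n : GaussianInt) : nm (-n) = nm n := by
  unfold nm
  rw [map_neg, norm_neg]

lemma nat_ineq {b : ℕ} (hb : b ≠ 0) {s : ℝ} (h : (R b : ℝ) ≤ (b : ℝ) ^ s) :
    1 * rad (b : GaussianInt) ≤ nm (b : GaussianInt) ^ s := by
  rw [one_mul, nm_nat]
  exact (rad_nat hb).trans h

lemma one_ineq (s : ℝ) : 1 * rad (1 : GaussianInt) ≤ nm (1 : GaussianInt) ^ s := by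
  have := nat_ineq (b := 1) one_ne_zero (s := s) (by simp [R])
  simpa using this

lemma normSq_ge {Q : GaussianInt} (hQ : Prime Q) : 2 ≤ ‖GaussianInt.toComplex Q‖ ^ 2 := by
  rw [← H584.NF.Gau.nn_eq]
  have h1 : H584.NF.nn Q ≠ 0 := H584.NF.nn_ne hQ.ne_zero
  have h2 : H584.NF.nn Q ≠ 1 := by
    intro h
    unfold H584.NF.nn at h
    rw [Ideal.absNorm_eq_one_iff, Ideal.span_singleton_eq_top] at h
    exact hQ.not_isUnit h
  exact_mod_cast (by omega : 2 ≤ H584.NF.nn Q)

/-- A nonzero number with radical at most one is a unit. -/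
lemma isUnit_of_rad {n : GaussianInt} (hn : n ≠ 0) (h : rad n ≤ 1) : IsUnit n := by
  classical
  by_contra hcon
  obtain ⟨Q, hQ, hQn⟩ := WfDvdMonoid.exists_irreducible_factor hcon hn
  have hQp : Prime Q := hQ.prime
  -- a normalised associate
  obtain ⟨Q', hQQ', hq⟩ : ∃ Q', Associated Q Q' ∧ (0 < Q'.re ∧ 0 ≤ Q'.im) := by
    have hQ0 : Q.re ≠ 0 ∨ Q.im ≠ 0 := by
      by_contra hc
      push Not at hc
      exact hQp.ne_zero (Zsqrtd.ext hc.1 hc.2)
    have hI : (⟨0, 1⟩ : GaussianInt) * ⟨0, -1⟩ = 1 := by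
      apply Zsqrtd.ext <;> simp
    have assoc : ∀ {u u' : GaussianInt}, u * u' = 1 → Associated Q (Q * u) := fun {u u'} hu =>
      ⟨⟨u, u', hu, by rw [mul_comm]; exact hu⟩, rfl⟩
    by_cases c1 : 0 < Q.re ∧ 0 ≤ Q.im
    · exact ⟨Q, Associated.refl Q, c1⟩
    · by_cases c2 : 0 < Q.im ∧ Q.re ≤ 0
      · refine ⟨Q * ⟨0, -1⟩, assoc (u' := ⟨0, 1⟩) (by rw [mul_comm]; exact hI), ?_⟩
        simp
        omega
      · by_cases c3 : Q.re < 0 ∧ Q.im ≤ 0
        · refine ⟨Q * (-1), assoc (u' := -1) (by norm_num), ?_⟩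
          simp
          omega
        · refine ⟨Q * ⟨0, 1⟩, assoc hI, ?_⟩
          simp
          omega
  have hQ'p : Prime Q' := hQQ'.prime hQp
  have hmem : Q' ∈ H584.NF.Gau.PS n := ⟨hQ'p, (hQQ'.symm.dvd).trans hQn, hq⟩
  have hfin : (H584.NF.Gau.PS n).Finite := by
    refine Set.Finite.of_finite_image (Set.Finite.subset
      (UniqueFactorizationMonoid.primeFactors (Ideal.span {n})).finite_toSet ?_)
      (H584.NF.Gau.injOn _ fun Q hQ => hQ.2.2)
    rintro _ ⟨Q, hQ, rfl⟩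
    exact H584.NF.Gau.mapsTo hn Q hQ
  have hrad : rad n = ∏ Q ∈ hfin.toFinset, ‖GaussianInt.toComplex Q‖ :=
    finprod_mem_eq_finite_toFinset_prod _ hfin
  have hone : ∀ Q ∈ hfin.toFinset, 1 ≤ ‖GaussianInt.toComplex Q‖ := by
    intro Q hQ
    have h1 := normSq_ge ((Set.Finite.mem_toFinset hfin).1 hQ).1
    by_contra h2
    rw [not_le] at h2
    have : ‖GaussianInt.toComplex Q‖ ^ 2 < 1 := pow_lt_one₀ (norm_nonneg _) h2 two_ne_zero
    linarith
  have h1 : ‖GaussianInt.toComplex Q'‖ ≤ rad n := by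
    rw [hrad, ← Finset.mul_prod_erase _ _ ((Set.Finite.mem_toFinset hfin).2 hmem)]
    have h4 : (1 : ℝ) ≤ ∏ Q ∈ hfin.toFinset.erase Q', ‖GaussianInt.toComplex Q‖ := by
      calc (1 : ℝ) = ∏ Q ∈ hfin.toFinset.erase Q', (1 : ℝ) := (Finset.prod_const_one).symm
        _ ≤ _ := Finset.prod_le_prod (fun _ _ => zero_le_one)
          fun Q hQ => hone Q (Finset.mem_of_mem_erase hQ)
    exact le_mul_of_one_le_right (norm_nonneg _) h4
  have h2 := normSq_ge hQ'p
  have h3 : ‖GaussianInt.toComplex Q'‖ ^ 2 ≤ 1 := pow_le_one₀ (norm_nonneg _) (h1.trans h)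
  linarith

lemma units_finite : {x : GaussianInt | IsUnit x}.Finite := by
  have hinj : Function.Injective (fun x : GaussianInt => (x.re, x.im)) := by
    intro x y h
    rw [Prod.mk.injEq] at h
    exact Zsqrtd.ext h.1 h.2
  refine Set.Finite.of_finite_image (((Set.finite_Icc (-1 : ℤ) 1).prod
    (Set.finite_Icc (-1 : ℤ) 1)).subset ?_) (hinj.injOn)
  rintro _ ⟨x, hx, rfl⟩
  have h2 : IsUnit (Algebra.norm ℤ x) := hx.map _
  rw [H584.NF.Gau.norm_eq] at h2
  have h1 : x.re ^ 2 + x.im ^ 2 = 1 := by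
    rcases Int.isUnit_iff.1 h2 with h3 | h3
    · exact h3
    · have : 0 ≤ x.re ^ 2 + x.im ^ 2 := by positivity
      omega
  have hb : x.im ^ 2 ≤ 1 := by nlinarith [sq_nonneg x.re]
  have ha : x.re ^ 2 ≤ 1 := by nlinarith [sq_nonneg x.im]
  have hb' : -1 ≤ x.im ∧ x.im ≤ 1 := abs_le.1 (by
    rw [← sq_abs] at hb
    nlinarith [abs_nonneg x.im])
  have ha' : -1 ≤ x.re ∧ x.re ≤ 1 := abs_le.1 (by
    rw [← sq_abs] at ha
    nlinarith [abs_nonneg x.re])
  exact ⟨ha', hb'⟩

lemma unit_of_zero {n : GaussianInt} (hn : n ≠ 0) {q : ℚ} (hq : q = 0)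
    (h : 1 * rad n ≤ nm n ^ (q : ℝ)) : IsUnit n := by
  refine isUnit_of_rad hn ?_
  rwa [hq, Rat.cast_zero, Real.rpow_zero, one_mul] at h

/-- (1) Let `α`, `β`, `γ` be positive rational numbers with `α + β + γ = 1`. For every `K` there are
infinitely many triples `a + b = c` of coprime Gaussian integers with `K rad(a) ≤ |a| ^ α`,
`K rad(b) ≤ |b| ^ β`, `K rad(c) ≤ |c| ^ γ`, and the quotients `a / c` are dense in `ℂ`.
(2) If `α`, `β`, `γ` are rational, nonnegative, with `α + β + γ = 1`, then there are infinitely many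
triples with `rad(a) ≤ |a| ^ α`, `rad(b) ≤ |b| ^ β`, `rad(c) ≤ |c| ^ γ` if and only if `α < 1`,
`β < 1` and `γ < 1`. -/
theorem result :
    (∀ α β γ : ℚ, 0 < α → 0 < β → 0 < γ → α + β + γ = 1 → ∀ (K : ℝ) (z : ℂ) (ε : ℝ), 0 < ε →
      {p ∈ Triples K α β γ | ‖GaussianInt.toComplex p.1 / GaussianInt.toComplex (p.1 + p.2) - z‖
        < ε}.Infinite) ∧
    ∀ α β γ : ℚ, 0 ≤ α → 0 ≤ β → 0 ≤ γ → α + β + γ = 1 →
      ((Triples 1 α β γ).Infinite ↔ α < 1 ∧ β < 1 ∧ γ < 1) := by
  refine ⟨fun α β γ hα hβ hγ h K z ε hε => part1 hα hβ hγ h K z hε,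
    fun α β γ hα hβ hγ h => ⟨fun hinf => ?_, ?_⟩⟩
  · have hUU := units_finite.prod units_finite
    refine ⟨?_, ?_, ?_⟩
    · by_contra hcon
      have hβ0 : β = 0 := by linarith
      have hγ0 : γ = 0 := by linarith
      refine hinf ((hUU.image fun p => (p.2 - p.1, p.1)).subset ?_)
      rintro ⟨a, b⟩ ⟨ha, hb, hc, -, -, h2, h3⟩
      simp only at ha hb hc h2 h3
      refine ⟨(b, a + b), ⟨unit_of_zero hb hβ0 h2, unit_of_zero hc hγ0 h3⟩, ?_⟩
      simp
    · by_contra hcon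
      have hα0 : α = 0 := by linarith
      have hγ0 : γ = 0 := by linarith
      refine hinf ((hUU.image fun p => (p.1, p.2 - p.1)).subset ?_)
      rintro ⟨a, b⟩ ⟨ha, hb, hc, -, h1, -, h3⟩
      simp only at ha hb hc h1 h3
      refine ⟨(a, a + b), ⟨unit_of_zero ha hα0 h1, unit_of_zero hc hγ0 h3⟩, ?_⟩
      simp
    · by_contra hcon
      have hα0 : α = 0 := by linarith
      have hβ0 : β = 0 := by linarith
      refine hinf (hUU.subset ?_)
      rintro ⟨a, b⟩ ⟨ha, hb, -, -, h1, h2, -⟩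
      simp only at ha hb h1 h2
      exact ⟨unit_of_zero ha hα0 h1, unit_of_zero hb hβ0 h2⟩
  · rintro ⟨hα1, hβ1, hγ1⟩
    have c1 : ∀ b : ℕ, (1 : GaussianInt) + (b : GaussianInt) = ((b + 1 : ℕ) : GaussianInt) := by
      intro b
      push_cast
      ring
    rcases eq_or_lt_of_le hα with ha | ha
    · -- `α = 0`
      have hβ' : 0 < β := by linarith
      have hg : (1 - β : ℝ) = (γ : ℝ) := by
        have : γ = 1 - β := by linarith
        rw [this]
        push_cast
        ring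
      have h2 := part2 hβ' hβ1
      refine ((h2.image (f := fun b : ℕ => ((1 : GaussianInt), (b : GaussianInt))) ?_)).mono ?_
      · intro x _ y _ hxy
        simp only [Prod.mk.injEq, Nat.cast_inj, true_and] at hxy
        exact hxy
      · rintro _ ⟨b, ⟨hb, r1, r2⟩, rfl⟩
        rw [hg] at r2
        have hb0 : (b : GaussianInt) ≠ 0 := by exact_mod_cast hb.ne'
        refine ⟨one_ne_zero, hb0, ?_, isCoprime_one_left, one_ineq _,
          nat_ineq hb.ne' r1, ?_⟩
        · rw [c1]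
          exact_mod_cast Nat.succ_ne_zero b
        · rw [c1]
          exact nat_ineq (Nat.succ_ne_zero b) r2
    · rcases eq_or_lt_of_le hβ with hb | hb
      · -- `β = 0`
        have hg : (1 - α : ℝ) = (γ : ℝ) := by
          have : γ = 1 - α := by linarith
          rw [this]
          push_cast
          ring
        have h2 := part2 ha hα1
        refine ((h2.image (f := fun b : ℕ => ((b : GaussianInt), (1 : GaussianInt))) ?_)).mono ?_
        · intro x _ y _ hxy
          simp only [Prod.mk.injEq, Nat.cast_inj, and_true] at hxy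
          exact hxy
        · rintro _ ⟨b, ⟨hb, r1, r2⟩, rfl⟩
          rw [hg] at r2
          have c2 : (b : GaussianInt) + 1 = ((b + 1 : ℕ) : GaussianInt) := by
            push_cast
            ring
          have hb0 : (b : GaussianInt) ≠ 0 := by exact_mod_cast hb.ne'
          refine ⟨hb0, one_ne_zero, ?_, isCoprime_one_right,
            nat_ineq hb.ne' r1, one_ineq _, ?_⟩
          · rw [c2]
            exact_mod_cast Nat.succ_ne_zero b
          · rw [c2]
            exact nat_ineq (Nat.succ_ne_zero b) r2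
      · rcases eq_or_lt_of_le hγ with hc | hc
        · -- `γ = 0`
          have hg : (1 - β : ℝ) = (α : ℝ) := by
            have : α = 1 - β := by linarith
            rw [this]
            push_cast
            ring
          have h2 := part2 hb hβ1
          refine ((h2.image (f := fun b : ℕ =>
            (((b + 1 : ℕ) : GaussianInt), -(b : GaussianInt))) ?_)).mono ?_
          · intro x _ y _ hxy
            simp only [Prod.mk.injEq, Nat.cast_inj] at hxy
            omega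
          · rintro _ ⟨b, ⟨hb, r1, r2⟩, rfl⟩
            rw [hg] at r2
            have c2 : ((b + 1 : ℕ) : GaussianInt) + -(b : GaussianInt) = 1 := by
              push_cast
              ring
            have hb' : (b : GaussianInt) ≠ 0 := by exact_mod_cast hb.ne'
            have hb1 : ((b + 1 : ℕ) : GaussianInt) ≠ 0 := by exact_mod_cast Nat.succ_ne_zero b
            refine ⟨hb1, neg_ne_zero.2 hb', ?_, ?_,
              nat_ineq (Nat.succ_ne_zero b) r2, ?_, ?_⟩
            · rw [c2]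
              exact one_ne_zero
            · exact ⟨1, 1, by rw [one_mul, one_mul]; exact c2⟩
            · rw [rad_neg, nm_neg]
              exact nat_ineq hb.ne' r1
            · rw [c2]
              exact one_ineq _
        · refine (part1 ha hb hc h 1 0 one_pos).mono (Set.sep_subset _ _)

end Pool.Agent.Results.MP_dc323a_nt.RadicalsOnTheBoundary
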